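import Pool.Agent.Helper996.Lin.Defs
import Pool.Agent.Helper996.Lin.Defs5b
import Pool.Agent.Helper996.Lin.J_G0_open

set_option autoImplicit false

open Polynomial Set Filter Topology
open scoped Manifold ContDiff

namespace LinS

/-- the loop `O ∘ γ` -/
noncomputable def cyclic_of_orbit_L {Z : Type*} [TopologicalSpace Z] (O : C(ℂ, Z)) (q : Z) {a b : ℂ}
    (γ : Path a b) (ha : O a = q) (hb : O b = q) : Path q q :=
  (γ.map O.continuous).cast ha.symm hb.symm

theorem cyclic_of_orbit_L_eq {Z : Type*} [TopologicalSpace Z] (O : C(ℂ, Z)) (q : Z)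
    {a b a' b' : ℂ} (γ : Path a b) (γ' : Path a' b') (haa : a = a') (hbb : b = b')
    (ha : O a = q) (hb : O b = q) (ha' : O a' = q) (hb' : O b' = q) :
    Path.Homotopic.Quotient.mk (cyclic_of_orbit_L O q γ ha hb) =
      Path.Homotopic.Quotient.mk (cyclic_of_orbit_L O q γ' ha' hb') := by
  subst haa hbb
  apply Path.Homotopic.Quotient.eq.2
  apply Path.Homotopic.pathCast
  exact (SimplyConnectedSpace.paths_homotopic γ γ').map O

theorem cyclic_of_orbit_L_trans {Z : Type*} [TopologicalSpace Z] (O : C(ℂ, Z)) (q : Z)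
    {a b c : ℂ} (γ : Path a b) (γ' : Path b c)
    (ha : O a = q) (hb : O b = q) (hc : O c = q) :
    (cyclic_of_orbit_L O q γ ha hb).trans (cyclic_of_orbit_L O q γ' hb hc) =
      cyclic_of_orbit_L O q (γ.trans γ') ha hc := by
  ext t
  simp only [cyclic_of_orbit_L, Path.trans_apply, Path.cast_coe, Path.map_coe, Function.comp_apply]
  split_ifs <;> rfl

theorem cyclic_of_orbit_main {Z : Type*} [TopologicalSpace Z] (O : C(ℂ, Z)) (q : Z)
    (hO0 : O 0 = q) (Λ : AddSubgroup ℂ) (hΛ : ∀ s ∈ Λ, ∀ t, O (s + t) = O t)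
    (hcyc : IsAddCyclic Λ) (H : Subgroup (FundamentalGroup Z q))
    (hH : ∀ g ∈ H, ∃ (s : ℂ) (hs : O s = q) (_ : s ∈ Λ) (γ : Path (0:ℂ) s),
      g = Path.Homotopic.Quotient.mk (cyclic_of_orbit_L O q γ hO0 hs)) : IsCyclic H := by
  have hq : ∀ s : Λ, O (s : ℂ) = q := fun s => by
    have := hΛ s s.2 0
    rw [add_zero] at this; rw [this, hO0]
  let Φ : Multiplicative Λ →* FundamentalGroup Z q := MonoidHom.mk'
    (fun s => Path.Homotopic.Quotient.mk
      (cyclic_of_orbit_L O q (PathConnectedSpace.somePath (0:ℂ) ((Multiplicative.toAdd s : Λ) : ℂ)) hO0 (hq _)))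
    (by
      intro s t
      rw [FundamentalGroup.mul_def]
      set σ : Λ := Multiplicative.toAdd s with hσ
      set τ : Λ := Multiplicative.toAdd t with hτ
      have h1 : cyclic_of_orbit_L O q (PathConnectedSpace.somePath (0:ℂ) (σ : ℂ)) hO0 (hq σ) =
          cyclic_of_orbit_L O q (((PathConnectedSpace.somePath (0:ℂ) (σ : ℂ)).map
            (f := fun x => (τ : ℂ) + x) (by fun_prop)).cast (x' := (τ : ℂ)) (y' := (τ : ℂ) + σ)
              (by simp) rfl) (hq τ) (by rw [hΛ _ τ.2]; exact hq σ) := by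
        ext t
        simp only [cyclic_of_orbit_L, Path.cast_coe, Path.map_coe, Function.comp_apply]
        rw [hΛ _ τ.2]
      rw [h1, ← Path.Homotopic.Quotient.mk_trans, cyclic_of_orbit_L_trans]
      apply cyclic_of_orbit_L_eq
      · rfl
      · show ((σ + τ : Λ) : ℂ) = _
        push_cast
        exact add_comm _ _)
  have hle : H ≤ Φ.range := by
    intro g hg
    obtain ⟨s, hs, hsΛ, γ, rfl⟩ := hH g hg
    refine ⟨Multiplicative.ofAdd ⟨s, hsΛ⟩, ?_⟩
    exact cyclic_of_orbit_L_eq _ _ _ _ rfl rfl _ _ _ _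
  have : IsCyclic Φ.range := isCyclic_of_surjective Φ.rangeRestrict Φ.rangeRestrict_surjective
  exact Subgroup.isCyclic_of_le hle

theorem cyclic_of_orbit_act_mul {n : ℕ} (c d : ℂ) (w : Fin (n - 1) → ℂ) :
    act n c (act n d w) = act n (c * d) w := by
  funext i; simp only [act, mul_pow]; ring

theorem cyclic_of_orbit_act_one {n : ℕ} (w : Fin (n - 1) → ℂ) : act n 1 w = w := by
  funext i; simp [act]

theorem cyclic_of_orbit_sqf {n : ℕ} {c : ℂ} (hc : c ≠ 0) {w : Fin (n - 1) → ℂ}
    (hw : Squarefree (cpoly n w)) : Squarefree (cpoly n (act n c w)) := by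
  have key : ∀ d : ℂ, d ≠ 0 → (cpoly n (act n d w)).comp (C d * X) = C (d ^ n) * cpoly n w := by
    intro d hd
    unfold cpoly
    rw [add_comp, pow_comp, X_comp, Polynomial.sum_comp, mul_add, mul_pow, ← C_pow, Finset.mul_sum]
    congr 1
    apply Finset.sum_congr rfl
    intro i _
    rw [mul_comp, C_comp, pow_comp, X_comp, mul_pow, ← C_pow]
    have : d ^ n = d ^ (n - (i : ℕ)) * d ^ (i : ℕ) := by
      rw [← pow_add]; congr 1; have := i.2; omega
    rw [this]; simp only [act, C_mul]; ring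
  have hk := key c hc
  intro x hx
  obtain ⟨y, hy⟩ := hx
  have h1 : C (c ^ n) * cpoly n w = x.comp (C c * X) * x.comp (C c * X) * y.comp (C c * X) := by
    rw [← hk, hy, mul_comp, mul_comp]
  have hcn : C (c ^ n) * C ((c ^ n)⁻¹) = (1 : ℂ[X]) := by
    rw [← C_mul, mul_inv_cancel₀ (pow_ne_zero _ hc), C_1]
  have h2 : x.comp (C c * X) * x.comp (C c * X) ∣ cpoly n w := by
    refine ⟨C ((c ^ n)⁻¹) * y.comp (C c * X), ?_⟩
    linear_combination (C ((c ^ n)⁻¹)) * h1 - cpoly n w * hcn
  have h3 := hw _ h2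
  have h4 : (x.comp (C c * X)).comp (C c⁻¹ * X) = x := by
    rw [comp_assoc, mul_comp, C_comp, X_comp, ← mul_assoc, ← C_mul, mul_inv_cancel₀ hc, C_1,
      one_mul, comp_X]
  rw [← h4]
  obtain ⟨v, hv⟩ := isUnit_iff_exists_inv.1 h3
  refine isUnit_iff_exists_inv.2 ⟨v.comp (C c⁻¹ * X), ?_⟩
  rw [← mul_comp, hv, one_comp]

theorem cyclic_of_orbit_ne {n : ℕ} (hn : 3 ≤ n) {w : Fin (n - 1) → ℂ}
    (hw : Squarefree (cpoly n w)) : ∃ i, w i ≠ 0 := by
  by_contra h
  push Not at h
  have h1 : cpoly n w = X ^ n := by simp [cpoly, h]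
  rw [h1] at hw
  have := hw X ⟨X ^ (n - 2), by rw [← pow_two, ← pow_add]; congr 1; omega⟩
  exact not_isUnit_X this

theorem cyclic_of_orbit {Y : Type*} [TopologicalSpace Y] {n : ℕ} (hn : 3 ≤ n) (f : C(Y, G0 n))
    (h : ∀ y y' : Y, ∃ c : ℂ, c ≠ 0 ∧ (f y' : Fin (n - 1) → ℂ) = act n c (f y)) (y : Y) :
    IsCyclic (FundamentalGroup.map f y).range := by
  set q : G0 n := f y with hq
  have hqs : Squarefree (cpoly n (q : Fin (n - 1) → ℂ)) := q.2
  obtain ⟨i, hi⟩ := cyclic_of_orbit_ne hn hqs
  set e : ℕ := n - (i : ℕ) with he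
  have he0 : 0 < e := by have := i.2; omega
  have heC : (e : ℂ) ≠ 0 := by exact_mod_cast he0.ne'
  let O : C(ℂ, G0 n) := ⟨fun s => ⟨act n (Complex.exp s) q,
    cyclic_of_orbit_sqf (Complex.exp_ne_zero s) hqs⟩, by
      apply Continuous.subtype_mk
      unfold act
      fun_prop⟩
  have hO : ∀ s, ((O s : G0 n) : Fin (n - 1) → ℂ) = act n (Complex.exp s) q := fun _ => rfl
  have hO0 : O 0 = q := by
    apply Subtype.ext
    rw [hO, Complex.exp_zero, cyclic_of_orbit_act_one]
  have hOadd : ∀ s t, O s = q → O (s + t) = O t := by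
    intro s t hs
    apply Subtype.ext
    have h1 : act n (Complex.exp s) q = (q : Fin (n - 1) → ℂ) := by
      rw [← hO, hs]
    rw [hO, hO, Complex.exp_add, mul_comm, ← cyclic_of_orbit_act_mul, h1]
  let Λ : AddSubgroup ℂ :=
    { carrier := {s | O s = q}
      add_mem' := fun {a b} ha hb => by
        show O (a + b) = q
        rw [hOadd a b ha]; exact hb
      zero_mem' := hO0
      neg_mem' := fun {a} ha => by
        show O (-a) = q
        have := hOadd a (-a) ha
        rw [add_neg_cancel, hO0] at this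
        exact this.symm }
  have hΛm : ∀ s, s ∈ Λ ↔ O s = q := fun _ => Iff.rfl
  have hcyc : IsAddCyclic Λ := by
    have hle : Λ ≤ AddSubgroup.zmultiples (2 * Real.pi * Complex.I / e) := by
      intro s hs
      have h1 : act n (Complex.exp s) q = (q : Fin (n - 1) → ℂ) := by
        rw [← hO, (hΛm s).1 hs]
      have h2 := congrFun h1 i
      have h3 : Complex.exp s ^ e = 1 := by
        simp only [act] at h2
        exact mul_right_cancel₀ hi (by rw [one_mul]; exact h2)
      rw [← Complex.exp_nat_mul, Complex.exp_eq_one_iff] at h3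
      obtain ⟨k, hk⟩ := h3
      rw [AddSubgroup.mem_zmultiples_iff]
      refine ⟨k, ?_⟩
      rw [zsmul_eq_mul]
      field_simp
      linear_combination -hk
    exact AddSubgroup.isAddCyclic_of_le hle
  apply cyclic_of_orbit_main O q hO0 Λ (fun s hs t => hOadd s t hs) hcyc
  intro g hg
  obtain ⟨p, rfl⟩ := hg
  induction p using Path.Homotopic.Quotient.ind with
  | mk γ =>
  -- continuous logarithm
  have hFc : Continuous fun t : unitInterval => (f (γ t) : Fin (n - 1) → ℂ) := by fun_prop
  choose c hc0 hc using fun t : unitInterval => h y (γ t)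
  let g : C(unitInterval, {z : ℂ // z ≠ 0}) :=
    ⟨fun t => ⟨(f (γ t) : Fin (n - 1) → ℂ) i / (q : Fin (n - 1) → ℂ) i, by
      rw [hc t]
      exact div_ne_zero (mul_ne_zero (pow_ne_zero _ (hc0 t)) hi) hi⟩, by
      apply Continuous.subtype_mk
      exact ((continuous_apply i).comp hFc).div_const _⟩
  have hg0 : g 0 = (fun z : ℂ ↦ (⟨_, z.exp_ne_zero⟩ : {z : ℂ // z ≠ 0})) 0 := by
    apply Subtype.ext
    simp only [g, ContinuousMap.coe_mk, γ.source, Complex.exp_zero]
    exact div_self hi
  obtain ⟨L, hL, hL0⟩ := Complex.isCoveringMap_exp.exists_path_lifts g 0 hg0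
  have hLe : ∀ t, Complex.exp (L t) = (f (γ t) : Fin (n - 1) → ℂ) i / (q : Fin (n - 1) → ℂ) i := by
    intro t
    have := congrFun hL t
    exact congrArg Subtype.val this
  have hek : ∀ t, (c t) ^ e = Complex.exp (L t) := by
    intro t
    rw [hLe, hc t]
    simp only [act]
    field_simp
    rfl
  -- the normalised path is constant
  have hh : ∀ t : unitInterval, act n (Complex.exp (-(L t / e))) (f (γ t)) =
      (q : Fin (n - 1) → ℂ) := by
    have hT : (((fun ζ : ℂ => act n ζ (q : Fin (n - 1) → ℂ)) ''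
        (↑(Polynomial.nthRoots e (1:ℂ)).toFinset : Set ℂ))).Finite :=
      (Finset.finite_toSet _).image _
    have hcont : Continuous fun t : unitInterval =>
        act n (Complex.exp (-(L t / e))) (f (γ t)) := by
      apply continuous_pi
      intro j
      have h1 : Continuous fun t : unitInterval => Complex.exp (-(L t / e)) ^ (n - (j : ℕ)) := by
        fun_prop
      exact h1.mul ((continuous_apply j).comp hFc)
    intro t
    have h1 := isPreconnected_univ.constant_of_mapsTo hT.isDiscrete hcont.continuousOn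
      (x := t) (y := 0) (by
        intro u _
        refine ⟨Complex.exp (-(L u / e)) * c u, ?_, ?_⟩
        · rw [Finset.mem_coe, Multiset.mem_toFinset, Polynomial.mem_nthRoots he0, mul_pow, hek,
            ← Complex.exp_nat_mul, ← Complex.exp_add]
          have : (e : ℂ) * -(L u / e) + L u = 0 := by field_simp; ring
          rw [this, Complex.exp_zero]
        · simp only
          rw [hc u, cyclic_of_orbit_act_mul]) (mem_univ _) (mem_univ _)
    rw [h1, hL0, zero_div, neg_zero, Complex.exp_zero, cyclic_of_orbit_act_one, γ.source]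
  have hOs : ∀ t : unitInterval, O (L t / e) = f (γ t) := by
    intro t
    apply Subtype.ext
    rw [hO, ← hh t, cyclic_of_orbit_act_mul, ← Complex.exp_add, add_neg_cancel, Complex.exp_zero,
      cyclic_of_orbit_act_one]
  have hend : O (L 1 / e) = q := by rw [hOs 1, γ.target]
  refine ⟨L 1 / e, hend, hend, ⟨⟨fun t => L t / e, by fun_prop⟩, by simp [hL0], rfl⟩, ?_⟩
  show Path.Homotopic.Quotient.mk (γ.map f.continuous) = _
  congr 1
  apply Path.ext
  funext t
  exact (hOs t).symm

end LinS
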